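import Pool.Agent.R135.MG.Asm
import Pool.Agent.R135.MG.Pat
import Pool.Agent.R135.MG.Up
import Pool.Agent.R135.MG.Low
import Pool.Agent.R135.MG.Blow
import Pool.Agent.R135.MG.Sig

/-! MP_529160_co, Q1: full answer (disproof).

For `r = 2`, `d = 1` the base case `A(2,1,a,s_0)` (`s_0 = 4`) holds for every `a ≥ 2`, but
`A(2,1,3,510)` fails: a blow-up of the line graph of `K_6` is a `(510, Σ_{2,1}(3,510))`-graph whose
product is asymptotically larger than `Π_{2,1}(3,n)`.
Contributors: helper135 (statement, proof, assembly), helper375 (Pat), helper164 (Low, Up), helper813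
(Blow), helper327 (Sig). -/

namespace Pool.Agent.Results.MP_529160_co.BaseCasesNotEnough

open Pool.Agent.R135.MG

theorem result :
    (∀ a, 2 ≤ a → A 2 1 a (s0 2 1)) ∧ ¬ A 2 1 3 510 ∧
    ¬ (∀ r d : ℕ, 1 ≤ r → (∀ a, d + 1 ≤ a → A r d a (s0 r d)) →
      ∀ s, s0 r d ≤ s → ∀ a, d + 1 ≤ a → A r d a s) :=
  Asm.assembly PatN.pat up low BlowN.blow SigN.sig SigN.tsq

end Pool.Agent.Results.MP_529160_co.BaseCasesNotEnough
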